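import Pool.Agent.Run7.h259.LHY.Final

/-!
# The condensate depletion of the dilute lattice Bose gas with a one-particle gap

`N` bosons on a finite set `V` of `n` sites, with the Hamiltonian
`∑ T_xy a_x^* a_y + (U/2) ∑ n_x (n_x - 1)`. The real symmetric matrix `T` kills the constants and
is at least `g` on the functions of mean zero. `R` is its Green matrix, and
`u = U / (1 + U R̄ / 2)`, `R̄` the mean of `R x x`, is the effective coupling (the scattering
length of the on-site repulsion). The theorem computes the number of particles outside the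
condensate in the ground state, and in every state whose energy per site is close to the minimal
one: it is `(u² N (N - 1) / (4 n²)) ∑_{x, y} R(x, y)²`, with a relative error which vanishes in the
dilute limit `N / n → 0` at any fixed strength `U` of the repulsion (if all sites are equivalent),
and in the limit of weak coupling `U → 0` at fixed density. All bounds are uniform in `n`.
-/

set_option autoImplicit false

namespace Run7.h259.Kept.BogoliubovDepletion

open Run7.h259.LHY

theorem result (g : ℝ) (hg : 0 < g) : ∃ C s₀ : ℝ, 0 < C ∧ 0 < s₀ ∧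
    ∀ (V : Type) [Fintype V] [DecidableEq V] [Nonempty V] (T R : V → V → ℝ),
    IsHopping g T → IsGreen T R →
    ∀ (U s δ : ℝ) (N : ℕ), 0 < U → 0 < s → s ≤ s₀ → 0 ≤ δ → 1 ≤ N →
    U * ((N : ℝ) / (Fintype.card V : ℝ) + diagVar R +
      (coupling U R * N / (Fintype.card V : ℝ)) ^ 2) ≤ s ^ 2 →
    ∀ ψ : (V → ℕ) → ℂ, IsState N ψ →
    (∀ χ : (V → ℕ) → ℂ, IsState N χ →
      energy T U N ψ ≤ energy T U N χ + δ * (Fintype.card V : ℝ)) →
    |((N : ℝ) - condensate N ψ) - coupling U R ^ 2 * (N * (N - 1)) /
        (4 * (Fintype.card V : ℝ) ^ 2) * ∑ x, ∑ y, R x y ^ 2| ≤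
      C * ((coupling U R * N / (Fintype.card V : ℝ)) ^ 2 * s + δ / s) * (Fintype.card V : ℝ) ∧
    |energy T U N ψ - coupling U R / (2 * (Fintype.card V : ℝ)) * (N * (N - 1))| ≤
      C * ((coupling U R * N / (Fintype.card V : ℝ)) ^ 2 * s ^ 2 + δ) *
        (Fintype.card V : ℝ) :=
  depletion g hg

end Run7.h259.Kept.BogoliubovDepletion
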